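import Pool.Agent.U481.HW.Stm

set_option autoImplicit false

/-!
Project HW, package SUF: `S_ext → S_suf` (the three classes of weights are admissible).
-/

open MeasureTheory Filter Topology Set
open scoped ENNReal NNReal Real

namespace Pool.Agent.U606.HW.SUF

open Pool.Dav Pool.Agent.U481.HW

lemma hilbert_eq {f : ℝ → ℂ} {x : ℝ} {v : ℂ} (h : HasHilbert f x v) : hilbert f x = v := by
  unfold hilbert
  have hex : ∃ v, HasHilbert f x v := ⟨v, h⟩
  rw [dif_pos hex]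
  exact tendsto_nhds_unique hex.choose_spec h

lemma hilbert_eq_zero {f : ℝ → ℂ} {x : ℝ} (h : ¬ ∃ v, HasHilbert f x v) : hilbert f x = 0 := by
  unfold hilbert
  rw [dif_neg h]

lemma meas_set (x ε : ℝ) : MeasurableSet {y : ℝ | ε < |x - y|} :=
  measurableSet_lt measurable_const (by fun_prop)

lemma tail_tendsto {f : ℝ → ℂ} (hf : Integrable f) (x : ℝ) :
    Tendsto (fun ε : ℝ => ∫ y in {y : ℝ | ε < |x - y|}, f y) (𝓝[>] (0 : ℝ)) (𝓝 (∫ y, f y)) := by
  have h1 : ∀ ε : ℝ, ∫ y in {y : ℝ | ε < |x - y|}, f y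
      = ∫ y, ({y : ℝ | ε < |x - y|}).indicator f y := fun ε =>
    (integral_indicator (meas_set x ε)).symm
  simp_rw [h1]
  apply tendsto_integral_filter_of_dominated_convergence (fun y => ‖f y‖)
  · exact Eventually.of_forall fun ε => hf.aestronglyMeasurable.indicator (meas_set x ε)
  · exact Eventually.of_forall fun ε => ae_of_all _ fun y => norm_indicator_le_norm_self _ _
  · exact hf.norm
  · have h2 : ∀ᵐ y ∂(volume : Measure ℝ), y ≠ x := by
      rw [ae_iff]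
      simp
    filter_upwards [h2] with y hy
    apply tendsto_const_nhds.congr'
    have hpos : 0 < |x - y| := abs_pos.mpr (sub_ne_zero.mpr (Ne.symm hy))
    filter_upwards [Ioo_mem_nhdsGT hpos] with ε hε
    rw [indicator_of_mem]
    exact hε.2

lemma int_div {f : ℝ → ℂ} (hf : Integrable f) (x ε : ℝ) (hε : 0 < ε) :
    IntegrableOn (fun y => f y / ((x : ℂ) - (y : ℂ))) {y : ℝ | ε < |x - y|} := by
  have h1 : IntegrableOn f {y : ℝ | ε < |x - y|} := hf.integrableOn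
  refine Integrable.mono' (g := fun y => ε⁻¹ * ‖f y‖) (h1.norm.const_mul _) ?_ ?_
  · exact h1.aestronglyMeasurable.div₀ (by fun_prop)
  · refine (ae_restrict_iff' (meas_set x ε)).mpr (ae_of_all _ fun y hy => ?_)
    have hy' : ε < |x - y| := hy
    rw [norm_div, ← Complex.ofReal_sub, Complex.norm_real, Real.norm_eq_abs, div_eq_inv_mul]
    gcongr

lemma trunc_rel {f : ℝ → ℂ} (hf : Integrable f) (a x ε : ℝ) (hε : 0 < ε) :
    truncH (fun y => ((y - a : ℝ) : ℂ) * f y) ε x = ((x - a : ℝ) : ℂ) * truncH f ε x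
      - (1 / (π : ℂ)) * ∫ y in {y : ℝ | ε < |x - y|}, f y := by
  unfold truncH
  have h1 : ∫ y in {y : ℝ | ε < |x - y|}, ((y - a : ℝ) : ℂ) * f y / ((x : ℂ) - (y : ℂ))
      = ∫ y in {y : ℝ | ε < |x - y|},
        (((x - a : ℝ) : ℂ) * (f y / ((x : ℂ) - (y : ℂ))) - f y) := by
    apply setIntegral_congr_fun (meas_set x ε)
    intro y hy
    have hy' : ε < |x - y| := hy
    have hne : (x : ℂ) - (y : ℂ) ≠ 0 := by
      rw [← Complex.ofReal_sub]
      intro h0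
      have h3 : x - y = 0 := by exact_mod_cast h0
      rw [h3, abs_zero] at hy'
      linarith
    simp only
    field_simp
    push_cast
    ring
  rw [h1, integral_sub ((int_div hf x ε hε).const_mul _) hf.integrableOn, integral_const_mul]
  ring

lemma has_iff {f : ℝ → ℂ} (hf : Integrable f) (h0 : ∫ x, f x = 0) (a x : ℝ) {v : ℂ}
    (h : HasHilbert f x v) :
    HasHilbert (fun y => ((y - a : ℝ) : ℂ) * f y) x (((x - a : ℝ) : ℂ) * v) := by
  have h1 : Tendsto (fun ε : ℝ => ((x - a : ℝ) : ℂ) * truncH f ε x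
      - (1 / (π : ℂ)) * ∫ y in {y : ℝ | ε < |x - y|}, f y) (𝓝[>] (0 : ℝ))
      (𝓝 (((x - a : ℝ) : ℂ) * v - (1 / (π : ℂ)) * 0)) := by
    refine (h.const_mul _).sub (Tendsto.const_mul _ ?_)
    rw [← h0]
    exact tail_tendsto hf x
  rw [mul_zero, sub_zero] at h1
  refine h1.congr' ?_
  filter_upwards [self_mem_nhdsWithin] with ε hε
  exact (trunc_rel hf a x ε hε).symm

lemma has_iff' {f : ℝ → ℂ} (hf : Integrable f) (h0 : ∫ x, f x = 0) (a x : ℝ) (hx : x ≠ a) {v : ℂ}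
    (h : HasHilbert (fun y => ((y - a : ℝ) : ℂ) * f y) x v) :
    HasHilbert f x (((x - a : ℝ) : ℂ)⁻¹ * v) := by
  have hne : ((x - a : ℝ) : ℂ) ≠ 0 := by
    exact_mod_cast sub_ne_zero.mpr hx
  have h1 : Tendsto (fun ε : ℝ => ((x - a : ℝ) : ℂ)⁻¹ *
      (truncH (fun y => ((y - a : ℝ) : ℂ) * f y) ε x
      + (1 / (π : ℂ)) * ∫ y in {y : ℝ | ε < |x - y|}, f y)) (𝓝[>] (0 : ℝ))
      (𝓝 (((x - a : ℝ) : ℂ)⁻¹ * (v + (1 / (π : ℂ)) * 0))) := by
    refine Tendsto.const_mul _ (h.add (Tendsto.const_mul _ ?_))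
    rw [← h0]
    exact tail_tendsto hf x
  rw [mul_zero, add_zero] at h1
  refine h1.congr' ?_
  filter_upwards [self_mem_nhdsWithin] with ε hε
  rw [trunc_rel hf a x ε hε, sub_add_cancel, ← mul_assoc, inv_mul_cancel₀ hne, one_mul]

lemma hilbert_mul {f : ℝ → ℂ} (hf : Integrable f) (h0 : ∫ x, f x = 0) (a x : ℝ) (hx : x ≠ a) :
    hilbert (fun y => ((y - a : ℝ) : ℂ) * f y) x = ((x - a : ℝ) : ℂ) * hilbert f x := by
  by_cases h : ∃ v, HasHilbert f x v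
  · obtain ⟨v, hv⟩ := h
    rw [hilbert_eq hv, hilbert_eq (has_iff hf h0 a x hv)]
  · rw [hilbert_eq_zero h, mul_zero]
    apply hilbert_eq_zero
    rintro ⟨v, hv⟩
    exact h ⟨_, has_iff' hf h0 a x hx hv⟩

lemma int_bdd {f : ℝ → ℂ} (hf : Integrable f) (a : ℝ) :
    Integrable (fun y => ((y - a : ℝ) : ℂ) * f y / ((1 + |y| : ℝ) : ℂ)) := by
  refine Integrable.mono' (g := fun y => (1 + |a|) * ‖f y‖) (hf.norm.const_mul _) ?_ ?_
  · exact (AEStronglyMeasurable.mul (by fun_prop) hf.aestronglyMeasurable).div₀ (by fun_prop)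
  · refine ae_of_all _ fun y => ?_
    have h1 : (0 : ℝ) < 1 + |y| := by positivity
    rw [norm_div, norm_mul, Complex.norm_real, Complex.norm_real, Real.norm_eq_abs,
      Real.norm_eq_abs, abs_of_pos h1, div_le_iff₀ h1]
    have h2 : |y - a| ≤ (1 + |a|) * (1 + |y|) := by
      have := abs_sub y a
      nlinarith [abs_nonneg y, abs_nonneg a, mul_nonneg (abs_nonneg a) (abs_nonneg y)]
    calc |y - a| * ‖f y‖ ≤ ((1 + |a|) * (1 + |y|)) * ‖f y‖ := by gcongr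
      _ = (1 + |a|) * ‖f y‖ * (1 + |y|) := by ring

lemma int_bdd' {f : ℝ → ℂ} (hf : Integrable f) :
    Integrable (fun y => f y / ((1 + |y| : ℝ) : ℂ)) := by
  refine Integrable.mono' (g := fun y => ‖f y‖) hf.norm ?_ ?_
  · exact hf.aestronglyMeasurable.div₀ (by fun_prop)
  · refine ae_of_all _ fun y => ?_
    have h1 : (0 : ℝ) < 1 + |y| := by positivity
    rw [norm_div, Complex.norm_real, Real.norm_eq_abs, abs_of_pos h1, div_le_iff₀ h1]
    nlinarith [norm_nonneg (f y), abs_nonneg y, mul_nonneg (norm_nonneg (f y)) (abs_nonneg y)]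

lemma enorm_mul_pow (p : ℝ) (hp : 0 ≤ p) (t : ℝ) (z : ℂ) :
    ‖((t : ℝ) : ℂ) * z‖ₑ ^ p = ‖z‖ₑ ^ p * ENNReal.ofReal (|t| ^ p) := by
  rw [enorm_mul, ENNReal.mul_rpow_of_nonneg _ _ hp, mul_comm]
  congr 1
  rw [← ENNReal.ofReal_rpow_of_nonneg (abs_nonneg t) hp]
  congr 1
  rw [← ofReal_norm, Complex.norm_real, Real.norm_eq_abs]

/-- The weighted inequality with weight `|x - a|^p W`. -/
lemma shift_case (h_ext : S_ext) (p : ℝ) (hp : 1 < p) (W : ℝ → ℝ≥0) (hW : Ap p W) :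
    ∃ C : ℝ≥0∞, C < ⊤ ∧ ∀ a : ℝ, ∀ f : ℝ → ℂ, Integrable f → ∫ x, f x = 0 →
    (∫⁻ x, ‖hilbert f x‖ₑ ^ p * (ENNReal.ofReal (|x - a| ^ p) * (W x : ℝ≥0∞)))
      ≤ C * ∫⁻ x, ‖f x‖ₑ ^ p * (ENNReal.ofReal (|x - a| ^ p) * (W x : ℝ≥0∞)) := by
  obtain ⟨C, hC, h⟩ := h_ext p hp W hW
  refine ⟨C, hC, fun a f hf h0 => ?_⟩
  have hp0 : 0 ≤ p := by linarith
  have h1 := h (fun y => ((y - a : ℝ) : ℂ) * f y)
    (AEStronglyMeasurable.mul (by fun_prop) hf.aestronglyMeasurable) (int_bdd hf a)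
  have h2 : ∀ᵐ y ∂(volume : Measure ℝ), y ≠ a := by
    rw [ae_iff]
    simp
  calc (∫⁻ x, ‖hilbert f x‖ₑ ^ p * (ENNReal.ofReal (|x - a| ^ p) * (W x : ℝ≥0∞)))
      = ∫⁻ x, ‖hilbert (fun y => ((y - a : ℝ) : ℂ) * f y) x‖ₑ ^ p * (W x : ℝ≥0∞) := by
        apply lintegral_congr_ae
        filter_upwards [h2] with x hx
        rw [hilbert_mul hf h0 a x hx, enorm_mul_pow p hp0, mul_assoc]
    _ ≤ C * ∫⁻ x, ‖((x - a : ℝ) : ℂ) * f x‖ₑ ^ p * (W x : ℝ≥0∞) := h1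
    _ = C * ∫⁻ x, ‖f x‖ₑ ^ p * (ENNReal.ofReal (|x - a| ^ p) * (W x : ℝ≥0∞)) := by
        congr 1
        apply lintegral_congr
        intro x
        rw [enorm_mul_pow p hp0, mul_assoc]

lemma coe_ofReal_mul {u w : ℝ≥0} {t : ℝ} (ht : 0 ≤ t) (h : (u : ℝ) = t * w) :
    (u : ℝ≥0∞) = ENNReal.ofReal t * (w : ℝ≥0∞) := by
  rw [← ENNReal.ofReal_coe_nnreal, h, ENNReal.ofReal_mul ht, ENNReal.ofReal_coe_nnreal]

theorem main : S_ext → S_suf := by
  intro h_ext p hp U hU hc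
  have hp0 : 0 ≤ p := by linarith
  rcases hc with hA | ⟨a, W, hW, hUW⟩ | ⟨W, hW, hUW⟩
  · obtain ⟨C, hC, h⟩ := h_ext p hp U hA
    exact ⟨C, hC, fun f hf _ => h f hf.aestronglyMeasurable (int_bdd' hf)⟩
  · obtain ⟨C, hC, h⟩ := shift_case h_ext p hp W hW
    refine ⟨C, hC, fun f hf h0 => ?_⟩
    have h3 : ∀ F : ℝ → ℝ≥0∞, (∫⁻ x, F x * (U x : ℝ≥0∞))
        = ∫⁻ x, F x * (ENNReal.ofReal (|x - a| ^ p) * (W x : ℝ≥0∞)) := by
      intro F
      apply lintegral_congr_ae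
      filter_upwards [hUW] with x hx
      rw [coe_ofReal_mul (by positivity) hx]
    rw [h3 (fun x => ‖hilbert f x‖ₑ ^ p), h3 (fun x => ‖f x‖ₑ ^ p)]
    exact h a f hf h0
  · obtain ⟨C, hC, h⟩ := shift_case h_ext p hp W hW
    obtain ⟨C', hC', h'⟩ := h_ext p hp W hW
    refine ⟨ENNReal.ofReal (2 ^ p) * C' + ENNReal.ofReal (2 ^ p) * C, ?_, fun f hf h0 => ?_⟩
    · exact ENNReal.add_lt_top.mpr ⟨ENNReal.mul_lt_top ENNReal.ofReal_lt_top hC',
        ENNReal.mul_lt_top ENNReal.ofReal_lt_top hC⟩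
    have h3 : ∀ F : ℝ → ℝ≥0∞, (∫⁻ x, F x * (U x : ℝ≥0∞))
        = ∫⁻ x, F x * (ENNReal.ofReal ((1 + |x|) ^ p) * (W x : ℝ≥0∞)) := by
      intro F
      apply lintegral_congr_ae
      filter_upwards [hUW] with x hx
      rw [coe_ofReal_mul (by positivity) hx]
    rw [h3 (fun x => ‖hilbert f x‖ₑ ^ p), h3 (fun x => ‖f x‖ₑ ^ p)]
    have hS : MeasurableSet {x : ℝ | |x| ≤ 1} := measurableSet_le (by fun_prop) measurable_const
    rw [← lintegral_add_compl _ hS, add_mul]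
    apply add_le_add
    · calc (∫⁻ x in {x : ℝ | |x| ≤ 1}, ‖hilbert f x‖ₑ ^ p *
            (ENNReal.ofReal ((1 + |x|) ^ p) * (W x : ℝ≥0∞)))
          ≤ ∫⁻ x in {x : ℝ | |x| ≤ 1}, ENNReal.ofReal (2 ^ p) *
            (‖hilbert f x‖ₑ ^ p * (W x : ℝ≥0∞)) := by
            apply setLIntegral_mono' hS
            intro x hx
            have hx' : |x| ≤ 1 := hx
            calc ‖hilbert f x‖ₑ ^ p * (ENNReal.ofReal ((1 + |x|) ^ p) * (W x : ℝ≥0∞))
                ≤ ‖hilbert f x‖ₑ ^ p * (ENNReal.ofReal (2 ^ p) * (W x : ℝ≥0∞)) := by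
                  gcongr
                  linarith
              _ = ENNReal.ofReal (2 ^ p) * (‖hilbert f x‖ₑ ^ p * (W x : ℝ≥0∞)) := by ring
        _ ≤ ∫⁻ x, ENNReal.ofReal (2 ^ p) * (‖hilbert f x‖ₑ ^ p * (W x : ℝ≥0∞)) :=
            setLIntegral_le_lintegral _ _
        _ = ENNReal.ofReal (2 ^ p) * ∫⁻ x, ‖hilbert f x‖ₑ ^ p * (W x : ℝ≥0∞) :=
            lintegral_const_mul' _ _ ENNReal.ofReal_ne_top
        _ ≤ ENNReal.ofReal (2 ^ p) * (C' * ∫⁻ x, ‖f x‖ₑ ^ p * (W x : ℝ≥0∞)) := by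
            gcongr
            exact h' f hf.aestronglyMeasurable (int_bdd' hf)
        _ ≤ ENNReal.ofReal (2 ^ p) * (C' * ∫⁻ x, ‖f x‖ₑ ^ p *
              (ENNReal.ofReal ((1 + |x|) ^ p) * (W x : ℝ≥0∞))) := by
            gcongr with x
            have h5 : (1 : ℝ≥0∞) ≤ ENNReal.ofReal ((1 + |x|) ^ p) := by
              rw [← ENNReal.ofReal_one]
              apply ENNReal.ofReal_le_ofReal
              apply Real.one_le_rpow _ hp0
              linarith [abs_nonneg x]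
            calc (W x : ℝ≥0∞) = 1 * (W x : ℝ≥0∞) := (one_mul _).symm
              _ ≤ ENNReal.ofReal ((1 + |x|) ^ p) * (W x : ℝ≥0∞) := by gcongr
        _ = ENNReal.ofReal (2 ^ p) * C' * ∫⁻ x, ‖f x‖ₑ ^ p *
              (ENNReal.ofReal ((1 + |x|) ^ p) * (W x : ℝ≥0∞)) := by rw [mul_assoc]
    · calc (∫⁻ x in {x : ℝ | |x| ≤ 1}ᶜ, ‖hilbert f x‖ₑ ^ p *
            (ENNReal.ofReal ((1 + |x|) ^ p) * (W x : ℝ≥0∞)))
          ≤ ∫⁻ x in {x : ℝ | |x| ≤ 1}ᶜ, ENNReal.ofReal (2 ^ p) *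
            (‖hilbert f x‖ₑ ^ p * (ENNReal.ofReal (|x - 0| ^ p) * (W x : ℝ≥0∞))) := by
            apply setLIntegral_mono' hS.compl
            intro x hx
            have hx' : 1 < |x| := by
              have : ¬ |x| ≤ 1 := hx
              linarith [not_le.mp this]
            have h6 : ENNReal.ofReal ((1 + |x|) ^ p)
                ≤ ENNReal.ofReal (2 ^ p) * ENNReal.ofReal (|x - 0| ^ p) := by
              rw [← ENNReal.ofReal_mul (by positivity), ← Real.mul_rpow (by norm_num) (abs_nonneg _)]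
              apply ENNReal.ofReal_le_ofReal
              apply Real.rpow_le_rpow (by positivity) _ hp0
              rw [sub_zero]
              linarith
            calc ‖hilbert f x‖ₑ ^ p * (ENNReal.ofReal ((1 + |x|) ^ p) * (W x : ℝ≥0∞))
                ≤ ‖hilbert f x‖ₑ ^ p * ((ENNReal.ofReal (2 ^ p) * ENNReal.ofReal (|x - 0| ^ p))
                  * (W x : ℝ≥0∞)) := by gcongr
              _ = ENNReal.ofReal (2 ^ p) * (‖hilbert f x‖ₑ ^ p *
                  (ENNReal.ofReal (|x - 0| ^ p) * (W x : ℝ≥0∞))) := by ring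
        _ ≤ ∫⁻ x, ENNReal.ofReal (2 ^ p) * (‖hilbert f x‖ₑ ^ p *
              (ENNReal.ofReal (|x - 0| ^ p) * (W x : ℝ≥0∞))) :=
            setLIntegral_le_lintegral _ _
        _ = ENNReal.ofReal (2 ^ p) * ∫⁻ x, ‖hilbert f x‖ₑ ^ p *
              (ENNReal.ofReal (|x - 0| ^ p) * (W x : ℝ≥0∞)) :=
            lintegral_const_mul' _ _ ENNReal.ofReal_ne_top
        _ ≤ ENNReal.ofReal (2 ^ p) * (C * ∫⁻ x, ‖f x‖ₑ ^ p *
              (ENNReal.ofReal (|x - 0| ^ p) * (W x : ℝ≥0∞))) := by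
            gcongr
            exact h 0 f hf h0
        _ ≤ ENNReal.ofReal (2 ^ p) * (C * ∫⁻ x, ‖f x‖ₑ ^ p *
              (ENNReal.ofReal ((1 + |x|) ^ p) * (W x : ℝ≥0∞))) := by
            gcongr with x
            rw [sub_zero]
            linarith
        _ = ENNReal.ofReal (2 ^ p) * C * ∫⁻ x, ‖f x‖ₑ ^ p *
              (ENNReal.ofReal ((1 + |x|) ^ p) * (W x : ℝ≥0∞)) := by rw [mul_assoc]

end Pool.Agent.U606.HW.SUF
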